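import Pool.Agent.Helper37.OF.St2
import Pool.Agent.Helper88.P3.Amal

/-! # OF MODULE TRG: triangle groups -/

set_option autoImplicit false

namespace Pool.Agent.Helper36.OF

open Pool.Agent.Helper37.OF Monoid Pool.Agent.Helper4.FS Matrix

universe u v w x

/-- diagonal matrices -/
private def dm : ℂ →* Matrix (Fin 2) (Fin 2) ℂ where
  toFun x := Matrix.diagonal ![x, 1]
  map_one' := by
    ext i j
    fin_cases i <;> fin_cases j <;> simp
  map_mul' x y := by
    rw [Matrix.diagonal_mul_diagonal]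
    congr 1
    ext i
    fin_cases i <;> simp

/-- the classes of the diagonal matrices -/
private noncomputable def dg : ℂˣ →* P2 ℂ := (ProjGenLinGroup.mk).comp (Units.map dm)

private theorem dg_inj : Function.Injective dg := by
  rw [injective_iff_map_eq_one]
  intro x hx
  have h1 : (ProjGenLinGroup.mk (Units.map dm x) : P2 ℂ) = 1 := hx
  rw [ProjGenLinGroup.mk_eq_one, mem_cen] at h1
  have h2 := h1.2.2
  have h3 : (x : ℂ) = 1 := by simpa [dm] using h2
  exact Units.ext h3

private theorem ex_order (n : ℕ) : ∃ ζ : ℂˣ, orderOf ζ = n := by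
  rcases Nat.eq_zero_or_pos n with rfl | hn
  · refine ⟨Units.mk0 2 two_ne_zero, ?_⟩
    rw [orderOf_eq_zero_iff']
    intro k hk h
    have h1 : ((2 : ℂ)) ^ k = 1 := by
      have := congrArg Units.val h
      simpa using this
    have h2 : ((2 : ℝ)) ^ k = 1 := by
      have := congrArg norm h1
      simpa using this
    have h3 : (1 : ℝ) < 2 ^ k := one_lt_pow₀ (by norm_num) hk.ne'
    linarith
  · have h := Complex.isPrimitiveRoot_exp n hn.ne'
    exact ⟨(h.isUnit hn.ne').unit, (h.isUnit_unit hn.ne').eq_orderOf.symm⟩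

private theorem ex_equiv {G : Type u} {G' : Type v} [Group G] [Group G'] (g : G) (g' : G')
    (h : orderOf g = orderOf g') : ∃ e : Subgroup.zpowers g ≃* Subgroup.zpowers g',
      e ⟨g, Subgroup.mem_zpowers g⟩ = ⟨g', Subgroup.mem_zpowers g'⟩ := by
  have hg : ∀ x : Subgroup.zpowers g, x ∈
      Subgroup.zpowers (⟨g, Subgroup.mem_zpowers g⟩ : Subgroup.zpowers g) := by
    rintro ⟨x, hx⟩
    obtain ⟨k, rfl⟩ := Subgroup.mem_zpowers_iff.1 hx
    exact Subgroup.mem_zpowers_iff.2 ⟨k, by ext; simp⟩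
  have hg' : ∀ x : Subgroup.zpowers g', x ∈
      Subgroup.zpowers (⟨g', Subgroup.mem_zpowers g'⟩ : Subgroup.zpowers g') := by
    rintro ⟨x, hx⟩
    obtain ⟨k, rfl⟩ := Subgroup.mem_zpowers_iff.1 hx
    exact Subgroup.mem_zpowers_iff.2 ⟨k, by ext; simp⟩
  refine ⟨mulEquivOfOrderOfEq hg hg' ?_, mulEquivOfOrderOfEq_apply_gen _ _ _⟩
  rw [Subgroup.orderOf_mk, Subgroup.orderOf_mk, h]

private theorem emb {H : Type u} [Group H] (a : H) :
    ∃ α : Subgroup.zpowers a →* P2 ℂ, Function.Injective α := by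
  obtain ⟨ζ, hζ⟩ := ex_order (orderOf a)
  obtain ⟨e, -⟩ := ex_equiv a ζ hζ.symm
  exact ⟨(dg.comp (Subgroup.zpowers ζ).subtype).comp e.toMonoidHom,
    (dg_inj.comp (Subgroup.subtype_injective _)).comp e.injective⟩

/-- TRG -/
theorem hTRG : StTRG.{u} := by
  intro H _ a b ha hb m hm
  obtain ⟨α, hα⟩ := emb a
  obtain ⟨β, hβ⟩ := emb b
  obtain ⟨a', ha'⟩ : ∃ a' : Subgroup.zpowers a, a' = ⟨a, Subgroup.mem_zpowers a⟩ := ⟨_, rfl⟩
  obtain ⟨b', hb'⟩ : ∃ b' : Subgroup.zpowers b, b' = ⟨b, Subgroup.mem_zpowers b⟩ := ⟨_, rfl⟩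
  have ha1 : a' ≠ 1 := by
    intro h
    apply ha
    have := congrArg Subtype.val h
    rwa [ha'] at this
  have hb1 : b' ≠ 1 := by
    intro h
    apply hb
    have := congrArg Subtype.val h
    rwa [hb'] at this
  have hrd : Function.Injective (rd ℂ) := pm_inj _ (RingHom.injective _)
  obtain ⟨r, hr⟩ : ∃ r : Coprod (Subgroup.zpowers a) (Subgroup.zpowers b),
    r = Coprod.inl a' * Coprod.inr b' := ⟨_, rfl⟩
  have hW : Wr (Coprod.map ((rd ℂ).comp α) ((rd ℂ).comp β) r) := by
    refine ⟨[(rd ℂ (α a'), rd ℂ (β b'))], by simp, ?_, ?_⟩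
    · intro p hp
      rw [List.mem_singleton] at hp
      subst hp
      refine ⟨fun h => ha1 (hα (hrd ?_)), fun h => hb1 (hβ (hrd ?_))⟩
      · rw [map_one, map_one]
        exact h
      · rw [map_one, map_one]
        exact h
    · rw [hr, wd_cons, wd_nil, mul_one, map_mul, Coprod.map_apply_inl, Coprod.map_apply_inr]
      exact IsConj.refl _
  obtain ⟨N, hN⟩ : ∃ N : Subgroup (Coprod (Subgroup.zpowers a) (Subgroup.zpowers b)),
    N = Subgroup.normalClosure {r ^ m} := ⟨_, rfl⟩
  have hNn : N.Normal := by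
    rw [hN]
    infer_instance
  have hinl : Function.Injective ((QuotientGroup.mk' N).comp Coprod.inl) := by
    rw [injective_iff_map_eq_one]
    intro x hx
    by_contra hx1
    have h1 : (Coprod.inl x : Coprod (Subgroup.zpowers a) (Subgroup.zpowers b)) ∈ N :=
      (QuotientGroup.eq_one_iff _).1 hx
    rw [hN] at h1
    exact inl_notMem ℂ α β r hW hm (fun h => hx1 (hα (by rw [h, map_one]))) h1
  have hinr : Function.Injective ((QuotientGroup.mk' N).comp Coprod.inr) := by
    rw [injective_iff_map_eq_one]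
    intro x hx
    by_contra hx1
    have h1 : (Coprod.inr x : Coprod (Subgroup.zpowers a) (Subgroup.zpowers b)) ∈ N :=
      (QuotientGroup.eq_one_iff _).1 hx
    rw [hN] at h1
    exact inr_notMem ℂ α β r hW hm (fun h => hx1 (hβ (by rw [h, map_one]))) h1
  obtain ⟨P, _, i, j, hi, hj, hij⟩ := Pool.Agent.Helper88.P3.exists_amalgam
    (Subgroup.zpowers a).subtype ((QuotientGroup.mk' N).comp Coprod.inl)
    (Subgroup.subtype_injective _) hinl
  obtain ⟨y, hy⟩ : ∃ y : P, y = j ((QuotientGroup.mk' N).comp Coprod.inr b') := ⟨_, rfl⟩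
  have hoy : orderOf (i b) = orderOf y := by
    rw [hy, orderOf_injective i hi, orderOf_injective j hj,
      orderOf_injective ((QuotientGroup.mk' N).comp Coprod.inr) hinr, hb', Subgroup.orderOf_mk]
  obtain ⟨φ, hφ⟩ := ex_equiv (i b) y hoy
  refine ⟨HNNExtension P _ _ φ, inferInstance, (HNNExtension.of).comp i, HNNExtension.t,
    fun x x' h => hi (HNNExtension.of_injective φ h), ?_⟩
  have h1 := HNNExtension.t_mul_of (φ := φ) ⟨i b, Subgroup.mem_zpowers (i b)⟩
  rw [hφ] at h1
  have h2 : i a = j ((QuotientGroup.mk' N).comp Coprod.inl a') := by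
    rw [← hij, ha']
    rfl
  have h3 : (i a * y) ^ m = 1 := by
    rw [h2, hy, ← map_mul, ← map_pow]
    have h4 : ((QuotientGroup.mk' N).comp Coprod.inl a' *
        (QuotientGroup.mk' N).comp Coprod.inr b') ^ m = 1 := by
      rw [MonoidHom.comp_apply, MonoidHom.comp_apply, ← map_mul, ← map_pow, ← hr]
      rw [QuotientGroup.mk'_apply, QuotientGroup.eq_one_iff, hN]
      exact Subgroup.subset_normalClosure rfl
    rw [h4, map_one]
  have h5 : (HNNExtension.of (φ := φ)).comp i a * HNNExtension.t * (HNNExtension.of).comp i b *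
      HNNExtension.t⁻¹ = HNNExtension.of (i a * y) := by
    rw [MonoidHom.comp_apply, MonoidHom.comp_apply, mul_assoc (HNNExtension.of (i a)), h1, map_mul]
    group
  rw [h5, ← map_pow, h3, map_one]

end Pool.Agent.Helper36.OF
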